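import Pool.Agent.TH684.AP.Enum

/-!
# Advice which contains random bits
-/

set_option autoImplicit false

namespace Pool.Agent.TH684.AP

open Pool.Agent.NPC Pool.Agent.H251R5.PQ Pool.Agent.W901.AT Pool.Agent.H579R2.Spt
open Pool.Agent.TH684.EX Pool.Agent.TH684.CX
open Pool.Agent.W901.NU

/-- The enumerator; the first string is the code of a list of random strings. -/
def EL (E0 : List Bool × List (List Bool) → List (List Bool)) (l : List (List Bool)) :
    List (List (Option Bool)) :=
  (E0 (((unbits (List (List Bool)) (l.getD 0 [])).getD []).getD (bits l.tail).length [],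
    l.tail)).map fun w => w.map some

theorem mapsome_poly : Poly (fun l : List (List Bool) => l.map fun w => w.map some) := by
  refine NPC.Poly.map (l := fun l : List (List Bool) => l) (F := fun _ w => w.map some)
    NPC.Poly.id ?_
  exact NPC.Poly.map (l := fun q : List (List Bool) × List Bool => q.2)
    (F := fun _ a => some a) (NPC.Poly.snd NPC.Poly.id)
    (NPC.Poly.some (NPC.Poly.snd NPC.Poly.id))

theorem cfn_EL {C : Set (List Bool) → Prop} (hC : Cl C)
    {E0 : List Bool × List (List Bool) → List (List Bool)} (h : CFn C E0) : CFn C (EL E0) := by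
  have e1 : Poly (fun l : List (List Bool) => l.tail) := NPC.Poly.tail NPC.Poly.id
  have e2 : Poly (fun l : List (List Bool) => (unbits (List (List Bool)) (l.getD 0 [])).getD []) :=
    NPC.Poly.optGetD (g := fun _ => []) (poly_unbits.comp (NPC.Poly.getD NPC.Poly.id
      (NPC.Poly.const 0) (NPC.Poly.const []))) (NPC.Poly.const _)
  have e3 : Poly (fun l : List (List Bool) =>
      ((unbits (List (List Bool)) (l.getD 0 [])).getD []).getD (bits l.tail).length []) :=
    NPC.Poly.getD e2 (NPC.Poly.length (bits_poly.comp e1)) (NPC.Poly.const [])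
  exact (CFn.poly hC mapsome_poly).comp hC (h.compPoly hC (NPC.Poly.pair e3 e1))

theorem dcd_congr {E E' : List (List Bool) → List (List (Option Bool))} {m : ℕ} {adv : List Item}
    {u : List Bool} (h : ∀ q ∈ adv, E (q.1.map Prod.fst ++ u :: q.2) =
      E' (q.1.map Prod.fst ++ u :: q.2)) : dcd E m adv u = dcd E' m adv u := by
  unfold dcd
  congr 3
  refine List.map_congr_left fun q hq => ?_
  unfold pred
  rw [h q hq]

/-- **Advice with random bits.** -/
theorem adv_exists {C : Set (List Bool) → Prop}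
    {E0 : List Bool × List (List Bool) → List (List Bool)} (hE0 : CFn C E0) {B : Set (List Bool)}
    {κ ρ : Polynomial ℕ} {rN : ℕ → List Bool} (hrN : ∀ N, (rN N).length = ρ.eval N)
    (hB : ∀ qs N, κ.eval (sz qs) ≤ N → answers B qs ∈ E0 (rN N, qs))
    {τ : Type} [TEnc τ] {F : τ × List Bool → List Bool} (hF : Poly F) :
    ∃ Pm Pa : Polynomial ℕ, (∀ n, 1 ≤ Pm.eval n) ∧ ∀ (n : ℕ) (x : τ), sz x ≤ n →
      ∃ adv : List Bool × List Item, sz adv ≤ Pa.eval n ∧ ∀ u : List Bool, u.length ≤ n →
        (dcd (fun z => EL E0 (adv.1 :: z.map (fun u => F (x, u)))) (Pm.eval n) adv.2 u = true ↔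
          F (x, u) ∈ B) := by
  classical
  obtain ⟨⟨p0, hp0⟩, -⟩ := hE0
  obtain ⟨pg, hpg⟩ := mapsome_poly.sz_le
  set Es : List (List Bool) → List (List (Option Bool)) :=
    fun qs => (E0 (rN (κ.eval (sz qs)), qs)).map fun w => w.map some with hEs
  have hszr : ∀ N, sz (rN N) ≤ 4 * ρ.eval N + 1 := fun N => by
    have := sz_listBool_le (rN N)
    rwa [hrN] at this
  have hpE : ∀ z, sz (Es z) ≤ (pg.comp (p0.comp (4 * ρ.comp κ + Polynomial.X + 2))).eval (sz z) := by
    intro z
    refine (hpg _).trans ?_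
    rw [Polynomial.eval_comp]
    refine eval_mono pg ((hp0 _).trans ?_)
    rw [Polynomial.eval_comp]
    refine eval_mono p0 ?_
    rw [sz_pair]
    have h1 := hszr (κ.eval (sz z))
    simp only [Polynomial.eval_add, Polynomial.eval_mul, Polynomial.eval_ofNat, Polynomial.eval_X,
      Polynomial.eval_comp]
    omega
  obtain ⟨Pm, Pa, hPm, hadv⟩ := adv_of_szEnum (A := B) (D := 1) (c := 0) le_rfl hpE
    (fun qs hqs _ => ⟨(answers B qs).map some, List.mem_map.2 ⟨_, hB qs _ le_rfl, rfl⟩,
      good_of_beats (δ := 1 / 2) (by norm_num) B qs hqs _ (full_beats le_rfl B qs hqs)⟩) hF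
  have hL : Poly (fun t : τ × (Item × List Bool) =>
      (t.2.1.1.map Prod.fst ++ t.2.2 :: t.2.1.2).map (fun u => F (t.1, u))) := by
    have e1 : Poly (fun t : τ × (Item × List Bool) => t.2.1) :=
      NPC.Poly.fst (NPC.Poly.snd NPC.Poly.id)
    have e4 : Poly (fun t : τ × (Item × List Bool) => t.2.1.1.map Prod.fst) :=
      NPC.Poly.map (F := fun _ (p : List Bool × Bool) => p.1) (NPC.Poly.fst e1)
        (NPC.Poly.fst (NPC.Poly.snd NPC.Poly.id))
    refine NPC.Poly.map (F := fun (t : τ × (Item × List Bool)) u => F (t.1, u))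
      (NPC.Poly.append e4 (NPC.Poly.cons (NPC.Poly.snd (NPC.Poly.snd NPC.Poly.id))
        (NPC.Poly.snd e1))) ?_
    exact hF.comp (NPC.Poly.pair (NPC.Poly.fst (NPC.Poly.fst NPC.Poly.id))
      (NPC.Poly.snd NPC.Poly.id))
  obtain ⟨pL, hpL⟩ := hL.sz_le
  set ME : Polynomial ℕ := pL.comp (5 * Polynomial.X + Pa + 3) with hME
  refine ⟨Pm, Pa + 4 * ((ME + 1) * (4 * (ρ.comp κ).comp ME + 2) + 1) + 2, hPm,
    fun n x hx => ?_⟩
  obtain ⟨adv, ha1, ha2⟩ := hadv n x hx
  set M : ℕ := ME.eval n with hM
  set l : List (List Bool) := (List.range (M + 1)).map fun s => rN (κ.eval s) with hl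
  refine ⟨(bits l, adv), ?_, fun u hu => ?_⟩
  · have h1 := sz_listBool_le (bits l)
    rw [bits_length] at h1
    have h2 := sz_le_length_mul l (4 * ρ.eval (κ.eval M) + 1) (fun a ha => by
      obtain ⟨s, hs, rfl⟩ := List.mem_map.1 ha
      have h3 := hszr (κ.eval s)
      have h4 : s ≤ M := by
        have := List.mem_range.1 hs
        omega
      have h5 := eval_mono ρ (eval_mono κ h4)
      omega)
    have h3 : l.length = M + 1 := by simp [hl]
    rw [h3] at h2
    rw [sz_pair]
    simp only [Polynomial.eval_add, Polynomial.eval_mul, Polynomial.eval_ofNat,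
      Polynomial.eval_one, Polynomial.eval_comp]
    rw [← hM]
    have h4 : 4 * ρ.eval (κ.eval M) + 1 + 1 = 4 * ρ.eval (κ.eval M) + 2 := by ring
    rw [h4] at h2
    omega
  · rw [← ha2 u hu]
    have h1 : dcd (fun z => EL E0 (bits l :: z.map (fun u => F (x, u)))) (Pm.eval n) adv u =
        dcd (fun z => Es (z.map (fun u => F (x, u)))) (Pm.eval n) adv u := by
      refine dcd_congr fun q hq => ?_
      have h2 : sz ((q.1.map Prod.fst ++ u :: q.2).map (fun u => F (x, u))) ≤ M := by
        refine (hpL (x, (q, u))).trans ?_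
        rw [hM, hME, Polynomial.eval_comp]
        refine eval_mono pL ?_
        rw [sz_pair, sz_pair]
        have h3 := sz_le_of_mem hq
        have h4 := sz_listBool_le u
        simp only [Polynomial.eval_add, Polynomial.eval_mul, Polynomial.eval_ofNat,
          Polynomial.eval_X]
        omega
      set qs := (q.1.map Prod.fst ++ u :: q.2).map (fun u => F (x, u)) with hqs
      simp only [EL, List.getD_cons_zero, List.tail_cons, unbits_bits, Option.getD_some,
        bits_length, hEs]
      have h5 : l.getD (sz qs) [] = rN (κ.eval (sz qs)) := by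
        rw [List.getD_eq_getElem _ _ (by simp [hl]; omega)]
        simp [hl]
      rw [h5]
    simp only
    rw [h1]

end Pool.Agent.TH684.AP
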