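import Pool.Agent.TH684.AM.DefsA
import Pool.Agent.TH684.DI.Defs
import Pool.Agent.W901.NU.Cls

/-!
# Distillations computed in a class: definitions
-/

set_option autoImplicit false

namespace Pool.Agent.TH684.AP

open Pool.Agent.NPC Pool.Agent.H251R5.PQ
open Pool.Agent.TH684.AM (AOut)
open Pool.Agent.W901.NU (CFn)

/-- The function `D` on strings is computable in the class `C` of languages: the lengths of its values
are polynomially bounded, and its graph `{(x, D x)}` is in `C`. -/
def StrIn (C : Set (List Bool) → Prop) (D : List Bool → List Bool) : Prop :=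
  (∃ p : Polynomial ℕ, ∀ x, (D x).length ≤ p.eval x.length) ∧ C {z | ∃ x, z = pairBits x (D x)}

/-- A function computable in the class `C` maps every nonempty list of strings to one string, which is
in `B` if and only if the list has the property `Q`, and whose length is at most polynomial in the
length of the longest string of the list, no matter how long the list is. -/
def DistillsIn (C : Set (List Bool) → Prop) (Q : List (List Bool) → Prop) (B : Set (List Bool)) :
    Prop :=
  ∃ (D : List Bool → List Bool) (q : Polynomial ℕ), StrIn C D ∧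
    ∀ (n : ℕ) (qs : List (List Bool)), qs ≠ [] → (∀ y ∈ qs, y.length ≤ n) →
      (D (bits qs)).length ≤ q.eval n ∧ (D (bits qs) ∈ B ↔ Q qs)

/-- The same with a probability of error of at most `1 / 3`: the function computable in `C` gets
`ρ k` random bits in addition, where `k` is the length of the code of the list. -/
def RDistillsIn (C : Set (List Bool) → Prop) (Q : List (List Bool) → Prop) (B : Set (List Bool)) :
    Prop :=
  ∃ (D : List Bool → List Bool) (ρ q : Polynomial ℕ), StrIn C D ∧
    ∀ (n : ℕ) (qs : List (List Bool)), qs ≠ [] → (∀ y ∈ qs, y.length ≤ n) →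
      (∀ r : List Bool, r.length = ρ.eval (bits qs).length →
        (D (pairBits (bits qs) r)).length ≤ q.eval n) ∧
      3 * {r : List Bool | r.length = ρ.eval (bits qs).length ∧
        ¬ (D (pairBits (bits qs) r) ∈ B ↔ Q qs)}.ncard ≤ 2 ^ ρ.eval (bits qs).length

/-- `AMFeasible` for an algorithm in the class. -/
def AMFeasibleIn (C : Set (List Bool) → Prop) (T : List (List Bool) → ℕ → Prop) : Prop :=
  ∃ (Y : List Bool → Option ℕ) (ρ p : Polynomial ℕ) (b c : ℕ), CFn C Y ∧
    ∀ (n : ℕ) (qs : List (List Bool)), qs.length = n ^ b + b → (∀ y ∈ qs, y.length ≤ n) →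
      (∀ r : List Bool, r.length = ρ.eval (bits qs).length → ∃ l, AOut Y p (bits qs) r l) ∧
      2 ^ (2 * (bits qs).length + 3) * {r : List Bool | r.length = ρ.eval (bits qs).length ∧
        ∃ l, AOut Y p (bits qs) r l ∧ ¬ (l ≤ n ^ c + c ∧ T qs l)}.ncard ≤
          2 ^ ρ.eval (bits qs).length

end Pool.Agent.TH684.AP
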