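import Pool.Agent.TH684.AM.Thm
import Pool.Agent.TH684.AP.Defs
import Pool.Agent.W901.NU.ClsB

/-!
# The verifier for a distillation computed in a class
-/

set_option autoImplicit false

namespace Pool.Agent.TH684.AP

open Pool.Agent.NPC Pool.Agent.H251R5.PQ Pool.Agent.W901.AT Pool.Agent.H579R2.Spt
open Pool.Agent.TH684.EX Pool.Agent.TH684.CX Pool.Agent.TH684.DI Pool.Agent.TH684.AM
open Pool.Agent.W901.NU

section

variable {C : Set (List Bool) → Prop} {α β γ : Type} [TEnc α] [TEnc β] [TEnc γ]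

theorem CFn.and (hC : Cl C) [TDec α] {f g : α → Bool} (hf : CFn C f) (hg : CFn C g) :
    CFn C (fun a => f a && g a) :=
  (CFn.poly hC (f := fun q : Bool × Bool => q.1 && q.2) (NPC.Poly.and
    (NPC.Poly.fst NPC.Poly.id) (NPC.Poly.snd NPC.Poly.id))).comp hC (hf.pair hC hg)

theorem cfn_FF (hC : Cl C) [TDec α] {D : List Bool → List Bool} (hD : CFn C D)
    (ρ : Polynomial ℕ) {m a : α → ℕ} {L : α → List (List Bool)} {b : α → List Bool}
    (hm : Poly m) (ha : UPoly a) (hL : Poly L) (hb : Poly b) :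
    CFn C (fun x => FF D ρ (m x) (a x) (L x) (b x)) := by
  unfold FF
  have e1 : Poly (fun t : α × List Bool => bits (L t.1)) :=
    bits_poly.comp (hL.comp (NPC.Poly.fst NPC.Poly.id))
  refine (CFn.poly hC bits_poly).comp hC (CFn.map hC
    (l := fun x => rowsL (m x) (24 * a x) (b x))
    (F := fun t : α × List Bool =>
      D (pairBits (bits (L t.1)) (t.2.take (ρ.eval (bits (L t.1)).length))))
    (rowsL_poly hm ((UPoly.const 24).mul ha) hb) ?_)
  exact hD.compPoly hC (H622R2.poly_pairBits e1 (take_poly' (NPC.Poly.snd NPC.Poly.id)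
    ((UPoly.length e1).eval ρ).toPoly))

theorem cfn_Fx (hC : Cl C) [TDec α] {D : List Bool → List Bool} (hD : CFn C D)
    (ρ q : Polynomial ℕ) (d : ℕ)
    {qs : α → List (List Bool)} {its : α → List (Bool × ℕ)} {a : α → ℕ} {x : α → List Bool}
    (hq : Poly qs) (hi : Poly its) (ha : UPoly a) (hx : Poly x) :
    CFn C (fun t => Fx D ρ q d (qs t) (its t) (a t) (x t)) := by
  unfold Fx
  exact cfn_FF hC hD ρ (ha.eval (mp ρ q d)).toPoly ha (sel_poly hq (pos_poly hi
    (take_poly' hx (ha.eval (tp q)).toPoly))) (drop_poly' hx (ha.eval (tp q)).toPoly)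

theorem cfn_tst (hC : Cl C) [TDec α] {g : List Bool → Bool} (hg : Poly g)
    {D : List Bool → List Bool} (hD : CFn C D)
    (ρ q : Polynomial ℕ) (d : ℕ) {qs : α → List (List Bool)} {c : α → Cm} {L1 L2 : α → ℕ}
    {ch : α → List Bool} {xx : α → List Bool × List Bool} (hq : Poly qs) (hc : Poly c)
    (h1 : Poly L1) (h2 : Poly L2) (hch : Poly ch) (hx : Poly xx) :
    CFn C (fun t => tst g D ρ q d (qs t) (c t) (L1 t) (L2 t) (ch t) (xx t)) := by
  have ea : UPoly (fun t => (c t).1.length) := UPoly.length (NPC.Poly.fst hc)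
  have c1 := NPC.Poly.fst (NPC.Poly.snd hc)
  have hF1 := cfn_Fx hC hD ρ q d hq c1 ea (NPC.Poly.fst hx)
  have hF2 := cfn_Fx hC hD ρ q d hq c1 ea (NPC.Poly.snd hx)
  have key : Poly (fun s : α × (List Bool × List Bool) =>
      ((decide ((xx s.1).1.length = (Np ρ q d).eval (c s.1).1.length) &&
        decide ((xx s.1).2.length = (Np ρ q d).eval (c s.1).1.length)) &&
      (decide (s.2.1 = s.2.2) &&
        !decide (sdx g q (c s.1).2.1 (c s.1).2.2.1.1 (c s.1).2.2.1.2 (c s.1).1.length (xx s.1).1 =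
          sdx g q (c s.1).2.1 (c s.1).2.2.1.1 (c s.1).2.2.1.2 (c s.1).1.length (xx s.1).2))) &&
      ((c s.1).2.2.2.2.1.any (fun h => decide (hsh ((Sp q).eval (c s.1).1.length + 1)
          (c s.1).2.2.2.1.1.length h s.2.1 = (ch s.1).take (c s.1).2.2.2.1.1.length)) &&
        ((c s.1).2.2.2.2.2.any (fun h => decide (hsh ((Np ρ q d).eval (c s.1).1.length + 1)
            (c s.1).2.2.2.1.2.length h (xx s.1).1 =
              ((ch s.1).drop (L1 s.1)).take (c s.1).2.2.2.1.2.length)) &&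
          (c s.1).2.2.2.2.2.any (fun h => decide (hsh ((Np ρ q d).eval (c s.1).1.length + 1)
            (c s.1).2.2.2.1.2.length h (xx s.1).2 =
              ((ch s.1).drop (L1 s.1 + L2 s.1)).take (c s.1).2.2.2.1.2.length))))) := by
    have f1 : Poly (fun s : α × (List Bool × List Bool) => s.1) := NPC.Poly.fst NPC.Poly.id
    have g1 : Poly (fun s : α × (List Bool × List Bool) => s.2.1) :=
      NPC.Poly.fst (NPC.Poly.snd NPC.Poly.id)
    have g2 : Poly (fun s : α × (List Bool × List Bool) => s.2.2) :=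
      NPC.Poly.snd (NPC.Poly.snd NPC.Poly.id)
    have hc' := hc.comp f1
    have ea : UPoly (fun s : α × (List Bool × List Bool) => (c s.1).1.length) :=
      UPoly.length (NPC.Poly.fst hc')
    have c1 := NPC.Poly.fst (NPC.Poly.snd hc')
    have c2 := NPC.Poly.snd (NPC.Poly.snd hc')
    have ei := NPC.Poly.fst (NPC.Poly.fst c2)
    have ee := NPC.Poly.snd (NPC.Poly.fst c2)
    have c3 := NPC.Poly.snd c2
    have el : UPoly (fun s : α × (List Bool × List Bool) => (c s.1).2.2.2.1.1.length) :=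
      UPoly.length (NPC.Poly.fst (NPC.Poly.fst c3))
    have ek : UPoly (fun s : α × (List Bool × List Bool) => (c s.1).2.2.2.1.2.length) :=
      UPoly.length (NPC.Poly.snd (NPC.Poly.fst c3))
    have eV := NPC.Poly.fst (NPC.Poly.snd c3)
    have eX := NPC.Poly.snd (NPC.Poly.snd c3)
    have eS := (ea.eval (Sp q)).toPoly
    have eN := (ea.eval (Np ρ q d)).toPoly
    have x1 := NPC.Poly.fst (hx.comp f1)
    have x2 := NPC.Poly.snd (hx.comp f1)
    have hch' := hch.comp f1
    have h1' := h1.comp f1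
    have h2' := h2.comp f1
    exact NPC.Poly.and (NPC.Poly.and (NPC.Poly.and
        (NPC.Poly.decide_eq (NPC.Poly.length x1) eN) (NPC.Poly.decide_eq (NPC.Poly.length x2) eN))
        (NPC.Poly.and (NPC.Poly.decide_eq g1 g2) (NPC.Poly.not (NPC.Poly.decide_eq
            (sdx_poly hg q c1 ei ee ea x1) (sdx_poly hg q c1 ei ee ea x2)))))
      (NPC.Poly.and (any_hsh_poly (NPC.Poly.add eS (NPC.Poly.const 1)) el eV
        g1 (take_poly' hch' el.toPoly))
        (NPC.Poly.and (any_hsh_poly (NPC.Poly.add eN (NPC.Poly.const 1)) ek eX x1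
          (take_poly' (drop_poly' hch' h1') ek.toPoly))
          (any_hsh_poly (NPC.Poly.add eN (NPC.Poly.const 1)) ek eX x2
            (take_poly' (drop_poly' hch' (NPC.Poly.add h1' h2')) ek.toPoly))))
  exact ((CFn.poly hC key).comp hC ((CFn.poly hC NPC.Poly.id).pair hC (hF1.pair hC hF2))).congr
    fun t => rfl

theorem cfn_vfy (hC : Cl C) [TDec α] (P : Par) (hg : Poly P.g) (hD : CFn C P.D)
    {qs : α → List (List Bool)}
    {zl : α → ℕ} {r : α → List Bool} {G : α → Gm} (hq : Poly qs) (hz : UPoly zl) (hr : Poly r)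
    (hG : Poly G) : CFn C (fun t => vfy P (qs t) (zl t) (r t) (G t)) := by
  have e1 : Poly (fun t : α × ℕ => t.1) := NPC.Poly.fst NPC.Poly.id
  have e2 : Poly (fun t : α × ℕ => t.2) := NPC.Poly.snd NPC.Poly.id
  have ec := ((hz.comp e1).eval P.cs).toPoly
  have h1 : CFn C (fun t : α × ℕ => tst P.g P.D P.ρ P.q P.d (qs t.1) (G t.1).1
      (P.L1.eval (zl t.1)) (P.L2.eval (zl t.1))
      (((r t.1).drop (t.2 * P.cs.eval (zl t.1))).take (P.cs.eval (zl t.1)))
      ((G t.1).2.getD t.2 ([], []))) :=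
    cfn_tst hC hg hD P.ρ P.q P.d (hq.comp e1) ((NPC.Poly.fst hG).comp e1)
      ((hz.comp e1).eval P.L1).toPoly ((hz.comp e1).eval P.L2).toPoly
      (take_poly' (drop_poly' (hr.comp e1) (NPC.Poly.mul e2 ec)) ec)
      (NPC.Poly.getD ((NPC.Poly.snd hG).comp e1) e2 (NPC.Poly.const ([], [])))
  have h2 := CFn.map hC (l := fun t : α => List.range (P.T.eval (zl t))) (hz.eval P.T).range h1
  have h3 : Poly (fun l : List Bool => l.all fun b => b) :=
    NPC.Poly.all (l := fun l : List Bool => l) (p := fun _ b => b) NPC.Poly.id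
      (NPC.Poly.snd NPC.Poly.id)
  have h4 := (CFn.poly hC h3).comp hC h2
  refine (CFn.and hC (CFn.poly hC (okc_poly P.ρ P.q P.d P.C0 P.C1 P.Q hq hz
    (NPC.Poly.fst hG))) h4).congr fun t => ?_
  unfold vfy
  rw [List.all_map]
  rfl

end

theorem cfn_ya {C : Set (List Bool) → Prop} (hC : Cl C) (P : Par) (hg : Poly P.g)
    (hD : CFn C P.D) : CFn C (ya P) := by
  have e1 : Poly (fun z : List Bool => (unpair (unpair z).1).1) :=
    NPC.Poly.fst (poly_unpair.comp (NPC.Poly.fst poly_unpair))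
  have e2 : Poly (fun z : List Bool => (unpair (unpair z).1).2) :=
    NPC.Poly.snd (poly_unpair.comp (NPC.Poly.fst poly_unpair))
  have e3 : Poly (fun z : List Bool => dgm (unpair z).2) :=
    dgm_poly.comp (NPC.Poly.snd poly_unpair)
  have e4 : Poly (fun z : List Bool => dl (unpair (unpair z).1).1) := dl_poly.comp e1
  have e5 := NPC.Poly.fst (NPC.Poly.snd (NPC.Poly.snd (NPC.Poly.fst e3)))
  have h1 := cfn_vfy hC P hg hD (NPC.Poly.cons (NPC.Poly.const P.y0)
    (NPC.Poly.cons (NPC.Poly.const P.y1) e4)) (UPoly.length e1) e2 e3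
  have f1 : Poly (fun s : List Bool × Bool => s.1) := NPC.Poly.fst NPC.Poly.id
  have h2 : Poly (fun s : List Bool × Bool => bif s.2 then
      some (bif (dgm (unpair s.1).2).1.2.2.1.2 then
        (dgm (unpair s.1).2).1.2.2.1.1 + (dl (unpair (unpair s.1).1).1).length
        else (dgm (unpair s.1).2).1.2.2.1.1) else none) :=
    NPC.Poly.cond (NPC.Poly.snd NPC.Poly.id)
      (NPC.Poly.some (NPC.Poly.cond ((NPC.Poly.snd e5).comp f1)
        (NPC.Poly.add ((NPC.Poly.fst e5).comp f1) ((NPC.Poly.length e4).comp f1))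
        ((NPC.Poly.fst e5).comp f1)))
      (NPC.Poly.const none)
  exact ((CFn.poly hC h2).comp hC ((CFn.poly hC NPC.Poly.id).pair hC h1)).congr fun z => rfl

end Pool.Agent.TH684.AP
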