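import Pool.Agent.TH684.AP.Main
import Pool.Agent.TH684.AP.Vf
import Pool.Agent.TH684.DI.OrAnd

/-!
# Distillation with bounded error of `PSPACE`-hard languages, computed in a class
-/

set_option autoImplicit false

namespace Pool.Agent.TH684.AP

open Pool.Agent.NPC Pool.Agent.H251R5.PQ Pool.Agent.W901.AT Pool.Agent.H579R2.Spt
open Pool.Agent.H623R2.PS (InPSPACE PSPACEHard)
open Pool.Agent.TH684.EX Pool.Agent.TH684.CX Pool.Agent.TH684.DI Pool.Agent.TH684.AM
open Pool.Agent.W901.NU
open Pool.Agent.TH762.XC (ttc_of_cl lst lst_poly lst_bits)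
open Pool.Agent.W920.NL (InAM Str str_finite str_ncard)
open Pool.Agent.TH684.LT (exists_pow_add_bound)

variable {C : Set (List Bool) → Prop} {g : List Bool → Bool} {A B : Set (List Bool)}

theorem StrIn.cfn (hC : Cl C) {D : List Bool → List Bool} (h : StrIn C D) : CFn C D := by
  obtain ⟨⟨p, hp⟩, hD⟩ := h
  refine ⟨⟨4 * p + 1, fun x => ?_⟩, ?_⟩
  · have h1 := sz_listBool_le (D x)
    have h2 := hp x
    have h3 := eval_mono p (length_lt_sz x).le
    simp only [Polynomial.eval_add, Polynomial.eval_mul, Polynomial.eval_one,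
      Polynomial.eval_ofNat]
    omega
  · have h1 : CPr C (fun x : List Bool => ∃ y, x = pairBits y (D y)) := CPr.of_raw hC hD
    have h2 := h1.comp hC (f := fun q : List Bool × List Bool => pairBits q.1 q.2)
      (H622R2.poly_pairBits (NPC.Poly.fst NPC.Poly.id) (NPC.Poly.snd NPC.Poly.id))
    refine h2.congr fun q => ?_
    constructor
    · rintro ⟨y, hy⟩
      have h3 := congrArg unpair hy
      rw [unpair_pairBits, unpair_pairBits, Prod.mk.injEq] at h3
      rw [h3.1]
      exact h3.2.symm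
    · intro h3
      exact ⟨q.1, by rw [h3]⟩

theorem StrIn.of_cfn (hC : Cl C) {D : List Bool → List Bool} (h : CFn C D) : StrIn C D := by
  obtain ⟨⟨ρ, hρ⟩, hg⟩ := h
  refine ⟨⟨ρ.comp (4 * Polynomial.X + 1), fun x => ?_⟩, ?_⟩
  · have h1 := length_lt_sz (D x)
    have h2 := hρ x
    have h3 := eval_mono ρ (sz_listBool_le x)
    rw [Polynomial.eval_comp]
    simp only [Polynomial.eval_add, Polynomial.eval_mul, Polynomial.eval_ofNat, Polynomial.eval_X,
      Polynomial.eval_one]
    omega
  · refine CPr.to_raw hC ?_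
    have h1 := hg.comp hC (f := fun z : List Bool => unpair z) poly_unpair
    have h2 : CPr C (fun z : List Bool => decide (z = pairBits (unpair z).1 (unpair z).2) = true) :=
      CPr.poly hC (NPC.Poly.decide_eq NPC.Poly.id (H622R2.poly_pairBits
        (NPC.Poly.fst poly_unpair) (NPC.Poly.snd poly_unpair)))
    refine (h1.and hC h2).congr fun z => ?_
    rw [decide_eq_true_eq]
    constructor
    · rintro ⟨h3, h4⟩
      exact ⟨(unpair z).1, by rw [h3]; exact h4⟩
    · rintro ⟨x, rfl⟩
      rw [unpair_pairBits]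
      exact ⟨rfl, rfl⟩

/-- **A distillation with bounded error excludes a vector with public coins, in the class.** -/
theorem amfeasibleIn_of_rspec (hC : Cl C) (hg : Poly g) (hsens : PolySens g)
    {y1 y0 : List Bool} (h1 : y1 ∈ A) (h0 : y0 ∉ A)
    {D : List Bool → List Bool} {ρ q : Polynomial ℕ} (hDp : CFn C D)
    (hs : RSpec (Val g A) B D ρ q) : AMFeasibleIn C (Exclude L3 A) := by
  obtain ⟨d, hd⟩ := hsens
  obtain ⟨C0, hC0⟩ := exists_C0 (Polynomial.C 4 * ((Sp q + 2) * (Sp q + Np ρ q d + 3)) +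
    Polynomial.C 8 * tp q * (Np ρ q d + 1))
  have hCe : ∀ a, C0 ≤ a → 4 * (((Sp q).eval a + 2) * ((Sp q).eval a + (Np ρ q d).eval a + 3)) +
      8 * (tp q).eval a * ((Np ρ q d).eval a + 1) ≤ 2 ^ a := fun a ha => by
    have := hC0 a ha
    simpa using this
  set P : Par := mkP g D ρ q d C0 y1 y0 with hP
  have hL1 : ∀ zl, (Sp P.q).eval (zl + P.C1) + 1 ≤ P.L1.eval zl := fun zl => by
    simp [hP, mkP]
  have hL2 : ∀ zl, (Np P.ρ P.q P.d).eval (zl + P.C1) ≤ P.L2.eval zl := fun zl => by
    simp [hP, mkP]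
  have hQ : ∀ zl, (Q0 P.ρ P.q P.d).eval (zl + P.C1) ≤ P.Q.eval zl := fun zl => by
    simp [hP, mkP]
  have hT : ∀ zl, P.Q.eval zl + 1 + (2 * zl + 3) ≤ P.T.eval zl := fun zl => by
    simp only [hP, mkP, Polynomial.eval_add, Polynomial.eval_mul, Polynomial.eval_C,
      Polynomial.eval_X, Polynomial.eval_ofNat]
    omega
  obtain ⟨b, hb⟩ := exists_pow_add_bound (Polynomial.X + 2 * (tp q).comp
    (Polynomial.X + Polynomial.C P.C1))
  have hbe : ∀ n, n + 2 * (tp q).eval (n + P.C1) ≤ n ^ b + b := fun n => by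
    have := hb n
    simpa using this
  obtain ⟨c, hc⟩ := exists_pow_add_bound (2 * (Polynomial.X ^ b + Polynomial.C b))
  have hce : ∀ n, 2 * (n ^ b + b) ≤ n ^ c + c := fun n => by
    have := hc n
    simpa using this
  refine ⟨ya P, P.T * P.cs, P.Q + (P.T * (Polynomial.C 8 * (Np P.ρ P.q P.d).comp
    (Polynomial.X + Polynomial.C P.C1) + 4) + 2), b, c, cfn_ya hC P hg hDp,
    fun n qs hqs hlen => ⟨fun r hr => ?_, ?_⟩⟩
  · have hqZ : qs.length ≤ (bits qs).length := by
      have e1 := length_lt_sz qs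
      have e3 := bits_length qs
      omega
    obtain ⟨G, hG1, hG2⟩ := vfy_complete P hs hd
      (fun a ha => le_trans (Nat.le_add_left _ _) (hCe a ha)) rfl hL1 hL2 hQ n qs
      (hqs ▸ hbe n) hlen (bits qs).length hqZ r hr
    refine ⟨bif G.1.2.2.1.2 then G.1.2.2.1.1 + qs.length else G.1.2.2.1.1, bits G, ?_, ?_⟩
    · refine hG2.trans (le_of_eq ?_)
      simp
    · unfold ya
      simp only [unpair_pairBits, dl_bits, dgm_bits]
      rw [hG1, cond_true]
  · refine le_trans (Nat.mul_le_mul_left _ (Set.ncard_le_ncard ?_ ?_))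
      (vfy_sound P hs h1 h0 (fun a ha => le_trans (Nat.le_add_right _ _) (hCe a ha)) hL1 hL2 hT qs
        (bits qs).length)
    · rintro r ⟨hr, l, ⟨w, -, hw⟩, hl⟩
      unfold ya at hw
      simp only [unpair_pairBits, dl_bits] at hw
      cases hv : vfy P (P.y0 :: P.y1 :: qs) (bits qs).length r (dgm w)
      · rw [hv, cond_false] at hw
        exact absurd hw (by simp)
      · rw [hv, cond_true] at hw
        refine ⟨hr, dgm w, hv, ?_⟩
        have h2 : okc P.ρ P.q P.d P.C0 P.C1 P.Q (P.y0 :: P.y1 :: qs) (bits qs).length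
            (dgm w).1 = true := by
          unfold vfy at hv
          rw [Bool.and_eq_true] at hv
          exact hv.1
        obtain ⟨_, _, _, _, _, _, f7, _⟩ := okc_facts h2
        have hi : (dgm w).1.2.2.1.1 < qs.length := by
          have e1 : (P.y0 :: P.y1 :: qs).length = qs.length + 2 := rfl
          omega
        refine exc_of_vec hi ?_
        by_contra hne
        refine hl ⟨?_, ?_⟩
        · rw [← Option.some.inj hw]
          have h4 := hce n
          rw [← hqs] at h4
          cases (dgm w).1.2.2.1.2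
          · rw [cond_false]
            omega
          · rw [cond_true]
            omega
        · rw [← Option.some.inj hw]
          exact hne
    · exact (str_finite _).subset fun r hr => hr.1

/-- **Exclusion with public coins, in the class, for `PSPACE`-hard sets.** -/
theorem pspace_sub_of_amfeasibleIn (hC : Cl C) {L : Set (List Bool)} (hA : PSPACEHard A)
    (hL : InP L) (h : AMFeasibleIn C (Exclude L A)) : ∀ S, InPSPACE S → C S := by
  obtain ⟨E, κ, ρ, rN, hE, hrN, hB⟩ := enumR hC (ttc_of_cl cl_pspace node_pspace) hA hL h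
  exact pspace_sub_of_enum hC hE hrN hB

theorem pspace_sub_of_rspec (hC : Cl C) (hg : Poly g) (hsens : PolySens g) (hA : PSPACEHard A)
    {D : List Bool → List Bool} {ρ q : Polynomial ℕ} (hDp : CFn C D)
    (hs : RSpec (Val g A) B D ρ q) : ∀ S, InPSPACE S → C S := by
  obtain ⟨y1, y0, h1, h0⟩ := exists_mem_of_pspacehard hA
  exact pspace_sub_of_amfeasibleIn hC hA l3_inP (amfeasibleIn_of_rspec hC hg hsens h1 h0 hDp hs)

/-- **Distillation with bounded error of a `PSPACE`-hard language, computed in the class.** -/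
theorem pspace_sub_of_rdistillsIn (hC : Cl C) (hg : Poly g) (hsens : PolySens g)
    (hA : PSPACEHard A) (h : RDistillsIn C (Val g A) B) : ∀ S, InPSPACE S → C S := by
  obtain ⟨D, ρ, q, hD, hs⟩ := h
  exact pspace_sub_of_rspec hC hg hsens hA (hD.cfn hC) hs

/-- `NP` is contained in `PSPACE`. -/
theorem inPSPACE_of_np {S : Set (List Bool)} (h : InNP S) : InPSPACE S := by
  obtain ⟨V, p, hV, hVL⟩ := h
  have h1 : InPSPACE {z : List Bool | V z = [true]} := cl_pspace.ofP ⟨V, hV, fun x => Iff.rfl⟩
  have h2 := cl_pspace.ex p h1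
  have e : S = {x | ∃ w : List Bool, w.length ≤ p.eval x.length ∧
      pairBits x w ∈ {z : List Bool | V z = [true]}} := Set.ext fun x => hVL x
  rw [e]
  exact h2

theorem nphard_of_pspacehard (hA : PSPACEHard A) : NPHard A := fun _ hL =>
  hA _ (inPSPACE_of_np hL)

/-- **Distillation with bounded error of a `PSPACE`-hard language puts `PSPACE` in `AM`.** -/
theorem pspace_inAM_of_rdistills (hg : Poly g) (hsens : PolySens g)
    (hA : PSPACEHard A) (h : RDistills (Val g A) B) : ∀ S, InPSPACE S → InAM S := by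
  have hC := cl_am fun S hS => inAM_of_rdistills hg hsens (nphard_of_pspacehard hA) h hS
  obtain ⟨D, ρ, q, hD, hs⟩ := h
  exact pspace_sub_of_rspec hC hg hsens hA (CFn.poly hC (PIso.poly_iff.2 hD)) hs

/-- **The exclusion of a vector with public coins for a `PSPACE`-hard set puts `PSPACE` in `AM`.** -/
theorem pspace_inAM_of_amfeasible {L : Set (List Bool)} (hA : PSPACEHard A) (hL : InP L)
    (h : AMFeasible (Exclude L A)) : ∀ S, InPSPACE S → InAM S := by
  have hC := cl_am fun S hS => inAM_of_amfeasible (nphard_of_pspacehard hA) hL h hS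
  obtain ⟨Y, ρ, p, b, c, hY, hs⟩ := h
  exact pspace_sub_of_amfeasibleIn hC hA hL ⟨Y, ρ, p, b, c, CFn.poly hC (poly_of_opt hY), hs⟩

/-- Sets in the class have distillations in the class. -/
theorem distillsIn_of_in (hC : Cl C) (hg : Poly g) (hA : C A) :
    DistillsIn C (Val g A) {[true]} := by
  classical
  have h1 : CPr C (fun q : List Bool × List Bool => q.2 ∈ A) :=
    (CPr.of_raw hC hA).comp hC (f := fun q : List Bool × List Bool => q.2)
      (NPC.Poly.snd NPC.Poly.id)
  have h2 : CFn C (fun x : List Bool => answers A (lst x)) :=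
    CFn.map hC (l := fun x : List Bool => lst x)
      (F := fun q : List Bool × List Bool => decide (q.2 ∈ A)) lst_poly (CFn.dec hC h1)
  have h3 : CFn C (fun x : List Bool => [g (answers A (lst x))]) :=
    (CFn.poly hC (f := fun l : List Bool => [g l]) (NPC.Poly.cons hg (NPC.Poly.const []))).comp
      hC h2
  refine ⟨_, 1, StrIn.of_cfn hC h3, fun n qs _ _ => ⟨by simp, ?_⟩⟩
  simp only [lst_bits, Set.mem_singleton_iff, List.cons.injEq, and_true]
  rfl

theorem rdistillsIn_of_distillsIn (hC : Cl C) {Q : List (List Bool) → Prop}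
    (h : DistillsIn C Q B) : RDistillsIn C Q B := by
  obtain ⟨D, q, hD, hs⟩ := h
  have h1 : CFn C (fun y : List Bool => D (unpair y).1) :=
    (hD.cfn hC).compPoly hC (NPC.Poly.fst poly_unpair)
  refine ⟨fun y => D (unpair y).1, 0, q, StrIn.of_cfn hC h1, fun n qs hne hlen => ?_⟩
  obtain ⟨h2, h3⟩ := hs n qs hne hlen
  simp only [unpair_pairBits]
  refine ⟨fun _ _ => h2, ?_⟩
  have h4 : {r : List Bool | r.length = (0 : Polynomial ℕ).eval (bits qs).length ∧
      ¬ (D (bits qs) ∈ B ↔ Q qs)} = ∅ := by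
    ext r
    simp only [Set.mem_ofPred_eq, Set.mem_empty_iff_false, iff_false, not_and, not_not]
    exact fun _ => h3
  rw [h4]
  simp

/-- **The law of distillation in a class.** -/
theorem law_in (hC : Cl C) (hg : Poly g) (hsens : PolySens g) : List.TFAE
    [∀ S : Set (List Bool), InPSPACE S → C S,
      ∃ A B : Set (List Bool), PSPACEHard A ∧ RDistillsIn C (Val g A) B,
      ∀ A : Set (List Bool), InPSPACE A → ∃ B, DistillsIn C (Val g A) B] := by
  tfae_have 1 → 3 := fun h A hA => ⟨_, distillsIn_of_in hC hg (h A hA)⟩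
  tfae_have 3 → 2 := fun h => by
    obtain ⟨B, hB⟩ := h _ node_pspace
    exact ⟨_, B, node_hard, rdistillsIn_of_distillsIn hC hB⟩
  tfae_have 2 → 1 := fun ⟨A, B, hA, h⟩ => pspace_sub_of_rdistillsIn hC hg hsens hA h
  tfae_finish

end Pool.Agent.TH684.AP
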