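import Pool.Agent.TH684.AM.Conv
import Pool.Agent.TH684.AP.Thm

/-!
# The law of exclusion with public coins for `PSPACE`
-/

set_option autoImplicit false

namespace Pool.Agent.TH684.AP

open Pool.Agent.NPC Pool.Agent.H251R5.PQ Pool.Agent.W901.AT Pool.Agent.H579R2.Spt
open Pool.Agent.H623R2.PS (InPSPACE PSPACEHard)
open Pool.Agent.TH684.EX Pool.Agent.TH684.CX Pool.Agent.TH684.DI Pool.Agent.TH684.AM
open Pool.Agent.W901.NU
open Pool.Agent.W920.NL

/-- The algorithm. -/
def yn2 (V1 : List Bool → List Bool) (p1 ρ1 : Polynomial ℕ) (V2 : List Bool → List Bool)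
    (ρ2 p2 ρ : Polynomial ℕ) (y : List Bool) : Option ℕ :=
  bif (dgn (unpair y).2).1 then
    (bif ckn V1 ρ1 p1 ((dl (unpair (unpair y).1).1).getD 0 [])
        (ρ.eval (unpair (unpair y).1).1.length) (2 * (unpair (unpair y).1).1.length + 3)
        (unpair (unpair y).1).2 (dgn (unpair y).2).2 then some 1 else none)
  else
    (bif ckn V2 ρ2 p2 ((dl (unpair (unpair y).1).1).getD 0 [])
        (ρ.eval (unpair (unpair y).1).1.length) (2 * (unpair (unpair y).1).1.length + 3)
        (unpair (unpair y).1).2 (dgn (unpair y).2).2 then some 0 else none)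

theorem yn2_poly {V1 V2 : List Bool → List Bool} (hV1 : Poly V1) (hV2 : Poly V2)
    (p1 ρ1 ρ2 p2 ρ : Polynomial ℕ) : Poly (yn2 V1 p1 ρ1 V2 ρ2 p2 ρ) := by
  have e1 : Poly (fun z : List Bool => (unpair (unpair z).1).1) :=
    NPC.Poly.fst (poly_unpair.comp (NPC.Poly.fst poly_unpair))
  have e2 : Poly (fun z : List Bool => (unpair (unpair z).1).2) :=
    NPC.Poly.snd (poly_unpair.comp (NPC.Poly.fst poly_unpair))
  have e3 : Poly (fun z : List Bool => dgn (unpair z).2) :=
    dgn_poly.comp (NPC.Poly.snd poly_unpair)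
  have e4 : Poly (fun z : List Bool => (dl (unpair (unpair z).1).1).getD 0 []) :=
    NPC.Poly.getD (dl_poly.comp e1) (NPC.Poly.const 0) (NPC.Poly.const [])
  have eu := UPoly.length e1
  unfold yn2
  exact NPC.Poly.cond (NPC.Poly.fst e3)
    (NPC.Poly.cond (ckn_poly hV1 ρ1 p1 e4 (eu.eval ρ).toPoly
      (((UPoly.const 2).mul eu).add (UPoly.const 3)) e2 (NPC.Poly.snd e3))
      (NPC.Poly.const (some 1)) (NPC.Poly.const none))
    (NPC.Poly.cond (ckn_poly hV2 ρ2 p2 e4 (eu.eval ρ).toPoly
      (((UPoly.const 2).mul eu).add (UPoly.const 3)) e2 (NPC.Poly.snd e3))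
      (NPC.Poly.const (some 0)) (NPC.Poly.const none))

/-- Completeness of the repeated check. -/
theorem ckn_complete {V : List Bool → List Bool} {ρ' p' ρ : Polynomial ℕ} {x : List Bool}
    (h : ∀ r : List Bool, r.length = ρ'.eval x.length → ∃ w : List Bool,
      w.length ≤ p'.eval x.length ∧ V (pairBits (pairBits x r) w) = [true])
    {N : ℕ} (hxl : x.length ≤ N) (hρ : ρ'.eval x.length ≤ ρ.eval N) (r : List Bool)
    (hr : r.length = (2 * N + 3) * ρ.eval N) (b : Bool) :
    ∃ ws : List (List Bool), (bits ((b, ws) : Gn)).length ≤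
      (2 * N + 3) * (4 * p'.eval N + 2) + 6 ∧
      ckn V ρ' p' x (ρ.eval N) (2 * N + 3) r ws = true := by
  have h1 : ∀ i, ∃ w : List Bool, w.length ≤ p'.eval x.length ∧
      (i < 2 * N + 3 → V (pairBits (pairBits x
        ((r.drop (i * ρ.eval N)).take (ρ'.eval x.length))) w) = [true]) := by
    intro i
    by_cases hi : i < 2 * N + 3
    · obtain ⟨w, hw1, hw2⟩ := h ((r.drop (i * ρ.eval N)).take (ρ'.eval x.length)) (by
          rw [List.length_take, List.length_drop, hr]
          have h3 : (i + 1) * ρ.eval N ≤ (2 * N + 3) * ρ.eval N := Nat.mul_le_mul_right _ hi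
          rw [Nat.add_mul, one_mul] at h3
          omega)
      exact ⟨w, hw1, fun _ => hw2⟩
    · exact ⟨[], Nat.zero_le _, fun h => absurd h hi⟩
  choose w hw1 hw2 using h1
  refine ⟨(List.range (2 * N + 3)).map w, ?_, ?_⟩
  · rw [bits_length, sz_pair]
    have h1 := sz_le_length_mul ((List.range (2 * N + 3)).map w)
      (4 * p'.eval N + 1) (fun v hv => by
        obtain ⟨i, _, rfl⟩ := List.mem_map.1 hv
        have h2 := sz_listBool_le (w i)
        have h3 := hw1 i
        have h4 := eval_mono p' hxl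
        omega)
    have h2 := sz_bool_le b
    rw [List.length_map, List.length_range] at h1
    have h3 : (2 * N + 3) * (4 * p'.eval N + 1 + 1) = (2 * N + 3) * (4 * p'.eval N + 2) := rfl
    omega
  · unfold ckn
    rw [List.all_eq_true]
    intro i hi
    have hi' := List.mem_range.1 hi
    have h3 : ((List.range (2 * N + 3)).map w).getD i [] = w i := by
      rw [List.getD_eq_getElem?_getD, List.getElem?_map, List.getElem?_range hi']
      rfl
    rw [h3, Bool.and_eq_true, decide_eq_true_eq, decide_eq_true_eq]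
    exact ⟨hw1 i, hw2 i hi'⟩

/-- Soundness of the repeated check. -/
theorem ckn_sound {V : List Bool → List Bool} {ρ' p' ρ : Polynomial ℕ} {x : List Bool}
    (h : 2 * {r : List Bool | r.length = ρ'.eval x.length ∧ ∃ w : List Bool,
      w.length ≤ p'.eval x.length ∧ V (pairBits (pairBits x r) w) = [true]}.ncard ≤
        2 ^ ρ'.eval x.length)
    {N : ℕ} (hρ : ρ'.eval x.length ≤ ρ.eval N) {X : Set (List Bool)}
    (hX : ∀ r ∈ X, r.length = (2 * N + 3) * ρ.eval N ∧
      ∃ ws, ckn V ρ' p' x (ρ.eval N) (2 * N + 3) r ws = true) :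
    2 ^ (2 * N + 3) * X.ncard ≤ 2 ^ ((2 * N + 3) * ρ.eval N) := by
  have h2 := blocks_le (X := {r : List Bool | r.length = ρ'.eval x.length ∧
    ∃ w : List Bool, w.length ≤ p'.eval x.length ∧
      V (pairBits (pairBits x r) w) = [true]}) (n := ρ'.eval x.length)
    (B := ρ.eval N) (fun r hr => hr.1) hρ h (2 * N + 3) (2 * N + 3) le_rfl
  refine le_trans (Nat.mul_le_mul_left _ (Set.ncard_le_ncard ?_ ?_)) h2
  · intro r hr0
    obtain ⟨hr, ws, hc⟩ := hX r hr0
    refine ⟨hr, fun i hi => ?_⟩
    unfold ckn at hc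
    rw [List.all_eq_true] at hc
    have h3 := hc i (List.mem_range.2 hi)
    rw [Bool.and_eq_true, decide_eq_true_eq, decide_eq_true_eq] at h3
    refine ⟨?_, _, h3.1, h3.2⟩
    rw [List.length_take, List.length_drop, hr]
    have h3 : (i + 1) * ρ.eval N ≤ (2 * N + 3) * ρ.eval N := Nat.mul_le_mul_right _ hi
    rw [Nat.add_mul, one_mul] at h3
    omega
  · exact (str_finite _).subset fun r hr => hr.1

/-- **If `A` and its complement are in `AM`, then a position which is not the only member of `A` can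
be found with public coins.** -/
theorem amfeasible_notOnly2 {A : Set (List Bool)} (hA : InAM A) (hA' : InAM Aᶜ) :
    AMFeasible (NotOnly A) := by
  classical
  obtain ⟨V1, ρ1, p1, hV1, hA1, hA1'⟩ := hA
  obtain ⟨V2, ρ2, p2, hV2, hA2, hA2'⟩ := hA'
  set ρ : Polynomial ℕ := ρ1 + ρ2 with hρ0
  have hρe : ∀ n, ρ.eval n = ρ1.eval n + ρ2.eval n := fun n => by simp [hρ0]
  set pw : Polynomial ℕ := (Polynomial.C 2 * Polynomial.X + 3) *
    (Polynomial.C 4 * p1 + 2) + 6 + ((Polynomial.C 2 * Polynomial.X + 3) *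
    (Polynomial.C 4 * p2 + 2) + 6) with hpw
  have hpwe : ∀ n, pw.eval n = (2 * n + 3) * (4 * p1.eval n + 2) + 6 +
      ((2 * n + 3) * (4 * p2.eval n + 2) + 6) := fun n => by simp [hpw]
  refine ⟨yn2 V1 p1 ρ1 V2 ρ2 p2 ρ, (Polynomial.C 2 * Polynomial.X + 3) * ρ, pw, 2, 2,
    polyTime_bits (yn2_poly (PIso.poly_iff.2 hV1) (PIso.poly_iff.2 hV2) p1 ρ1 ρ2 p2 ρ),
    fun n qs hqs hlen => ?_⟩
  have hqe : ((Polynomial.C 2 * Polynomial.X + 3) * ρ).eval (bits qs).length =
      (2 * (bits qs).length + 3) * ρ.eval (bits qs).length := by simp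
  have hm : 2 ≤ qs.length := by omega
  have hm2 : qs.length = n ^ 2 + 2 := hqs
  set x := qs.getD 0 [] with hx
  have hxl : x.length ≤ (bits qs).length := by
    have hne : 0 < qs.length := by omega
    rw [hx, List.getD_eq_getElem _ _ hne]
    have e1 := sz_le_of_mem (List.getElem_mem hne)
    have e2 := length_lt_sz qs[0]
    have e3 := bits_length qs
    omega
  have hρ1 : ρ1.eval x.length ≤ ρ.eval (bits qs).length := by
    have := eval_mono ρ1 hxl
    rw [hρe]
    omega
  have hρ2 : ρ2.eval x.length ≤ ρ.eval (bits qs).length := by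
    have := eval_mono ρ2 hxl
    rw [hρe]
    omega
  rw [hqe]
  constructor
  · intro r hr
    by_cases hxA : x ∈ A
    · obtain ⟨ws, h1, h2⟩ := ckn_complete (fun r hr => hA1 x hxA r hr) hxl hρ1 r hr true
      refine ⟨1, bits ((true, ws) : Gn), ?_, ?_⟩
      · rw [hpwe]
        omega
      · unfold yn2
        simp only [unpair_pairBits, dgn_bits, dl_bits, cond_true]
        rw [← hx, h2, cond_true]
    · obtain ⟨ws, h1, h2⟩ := ckn_complete (fun r hr => hA2 x hxA r hr) hxl hρ2 r hr false
      refine ⟨0, bits ((false, ws) : Gn), ?_, ?_⟩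
      · rw [hpwe]
        omega
      · unfold yn2
        simp only [unpair_pairBits, dgn_bits, dl_bits, cond_false]
        rw [← hx, h2, cond_true]
  · by_cases hxA : x ∈ A
    · refine ckn_sound (hA2' x fun h => h hxA) hρ2 ?_
      rintro r ⟨hr, l, ⟨w, -, hw⟩, hl⟩
      refine ⟨hr, (dgn w).2, ?_⟩
      unfold yn2 at hw
      simp only [unpair_pairBits, dl_bits] at hw
      rw [← hx] at hw
      cases hg : (dgn w).1
      · rw [hg, cond_false] at hw
        cases hc : ckn V2 ρ2 p2 x (ρ.eval (bits qs).length) (2 * (bits qs).length + 3) r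
          (dgn w).2
        · rw [hc, cond_false] at hw
          exact absurd hw (by simp)
        · rfl
      · rw [hg, cond_true] at hw
        exfalso
        cases hc : ckn V1 ρ1 p1 x (ρ.eval (bits qs).length) (2 * (bits qs).length + 3) r
          (dgn w).2
        · rw [hc, cond_false] at hw
          exact absurd hw (by simp)
        · rw [hc, cond_true] at hw
          refine hl ⟨?_, ?_⟩
          · rw [← Option.some.inj hw]
            omega
          · rw [← Option.some.inj hw]
            refine ⟨by omega, fun h3 => ?_⟩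
            have h4 := (h3 0 (by omega)).1 hxA
            exact absurd h4 (by norm_num)
    · refine ckn_sound (hA1' x hxA) hρ1 ?_
      rintro r ⟨hr, l, ⟨w, -, hw⟩, hl⟩
      refine ⟨hr, (dgn w).2, ?_⟩
      unfold yn2 at hw
      simp only [unpair_pairBits, dl_bits] at hw
      rw [← hx] at hw
      cases hg : (dgn w).1
      · rw [hg, cond_false] at hw
        exfalso
        cases hc : ckn V2 ρ2 p2 x (ρ.eval (bits qs).length) (2 * (bits qs).length + 3) r
          (dgn w).2
        · rw [hc, cond_false] at hw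
          exact absurd hw (by simp)
        · rw [hc, cond_true] at hw
          refine hl ⟨?_, ?_⟩
          · rw [← Option.some.inj hw]
            omega
          · rw [← Option.some.inj hw]
            exact ⟨by omega, fun h3 => hxA ((h3 0 (by omega)).2 rfl)⟩
      · rw [hg, cond_true] at hw
        cases hc : ckn V1 ρ1 p1 x (ρ.eval (bits qs).length) (2 * (bits qs).length + 3) r
          (dgn w).2
        · rw [hc, cond_false] at hw
          exact absurd hw (by simp)
        · rfl

/-- **The law of exclusion with public coins for `PSPACE`.** -/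
theorem pspace_am_tfae : List.TFAE
    [∀ S : Set (List Bool), InPSPACE S → InAM S,
      ∃ A L : Set (List Bool), PSPACEHard A ∧ InP L ∧ AMFeasible (Exclude L A),
      ∃ A : Set (List Bool), PSPACEHard A ∧ AMFeasible (NotOnly A),
      ∀ A : Set (List Bool), InPSPACE A → AMFeasible (NotOnly A)] := by
  tfae_have 1 → 4 := fun h A hA => amfeasible_notOnly2 (h A hA) (h _ (cl_pspace.compl hA))
  tfae_have 4 → 3 := fun h => ⟨_, node_hard, h _ node_pspace⟩
  tfae_have 3 → 2 := fun ⟨A, hA, h⟩ => ⟨A, Lunit, hA, lunit_inP, h.mono exclude_of_notOnly⟩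
  tfae_have 2 → 1 := fun ⟨A, L, hA, hL, h⟩ => pspace_inAM_of_amfeasible hA hL h
  tfae_finish

end Pool.Agent.TH684.AP
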