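import Pool.Agent.TH684.AP.Mo
import Pool.Agent.TH684.AP.Defs
import Pool.Agent.TH684.AM.Cls
import Pool.Agent.TH762.XC.Laws

/-!
# Candidate lists from the exclusion of a vector with public coins
-/

set_option autoImplicit false

namespace Pool.Agent.TH684.AP

open Pool.Agent.NPC Pool.Agent.H251R5.PQ Pool.Agent.W901.AT Pool.Agent.H579R2.Spt
open Pool.Agent.TH684.EX Pool.Agent.TH684.CX Pool.Agent.TH684.DI Pool.Agent.TH684.AM
open Pool.Agent.W901.NU
open Pool.Agent.TH762.XC
open Pool.Agent.W901.FH (hx hx_poly pow_polyc pow_upolyc)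
open Pool.Agent.W920.NL (Str str_finite str_ncard)

/-- The algorithm with the bound for the length of the reply. -/
def Yb (Y : List Bool → Option ℕ) (p : Polynomial ℕ) (y : List Bool) : Option ℕ :=
  bif decide ((unpair y).2.length ≤ p.eval (unpair (unpair y).1).1.length) then Y y else none

theorem cfn_Yb {C : Set (List Bool) → Prop} (hC : Cl C) {Y : List Bool → Option ℕ}
    (hY : CFn C Y) (p : Polynomial ℕ) : CFn C (Yb Y p) := by
  have f1 : Poly (fun y : List Bool × Option ℕ => y.1) := NPC.Poly.fst NPC.Poly.id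
  have e1 : Poly (fun y : List Bool × Option ℕ => (unpair (unpair y.1).1).1) :=
    NPC.Poly.fst (poly_unpair.comp (NPC.Poly.fst (poly_unpair.comp f1)))
  have h1 : Poly (fun y : List Bool × Option ℕ => bif decide ((unpair y.1).2.length ≤
      p.eval (unpair (unpair y.1).1).1.length) then y.2 else none) :=
    NPC.Poly.cond (NPC.Poly.decide_le (NPC.Poly.length (NPC.Poly.snd (poly_unpair.comp f1)))
      ((UPoly.length e1).eval p).toPoly) (NPC.Poly.snd NPC.Poly.id) (NPC.Poly.const _)
  exact (CFn.poly hC h1).comp hC ((CFn.poly hC NPC.Poly.id).pair hC hY)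

theorem nout_Yb {Y : List Bool → Option ℕ} {p : Polynomial ℕ} (z r : List Bool) (l : ℕ) :
    NOut (Yb Y p) p (pairBits z r) l ↔ AOut Y p z r l := by
  unfold NOut AOut Yb
  constructor
  · rintro ⟨w, hw, h⟩
    simp only [unpair_pairBits] at h
    by_cases h1 : w.length ≤ p.eval z.length
    · rw [decide_eq_true h1, cond_true] at h
      exact ⟨w, h1, h⟩
    · rw [decide_eq_false h1, cond_false] at h
      exact absurd h (by simp)
  · rintro ⟨w, hw, h⟩
    refine ⟨w, hw.trans (eval_mono p ?_), ?_⟩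
    · rw [pb_len]
      omega
    · simp only [unpair_pairBits]
      rw [decide_eq_true hw, cond_true, h]

/-- The least output on the key `q.2` with the random bits `q.1`. -/
noncomputable def Xr (Y : List Bool → Option ℕ) (ρ p : Polynomial ℕ)
    (q : List Bool × (List (List Bool) × ℕ)) : ℕ :=
  mo (Yb Y p) p (pairBits (bits q.2.1) (q.1.take (ρ.eval (bits q.2.1).length)))

theorem cfn_Xr {C : Set (List Bool) → Prop} (hC : Cl C) {Y : List Bool → Option ℕ}
    (hY : CFn C Y)
    (ρ p : Polynomial ℕ) : CFn C (Xr Y ρ p) := by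
  have e1 : Poly (fun q : List Bool × (List (List Bool) × ℕ) => bits q.2.1) :=
    bits_poly.comp (NPC.Poly.fst (NPC.Poly.snd NPC.Poly.id))
  exact (cfn_moC hC (cfn_Yb hC hY p) p).compPoly hC (H622R2.poly_pairBits e1
    (take_poly' (NPC.Poly.fst NPC.Poly.id) ((UPoly.length e1).eval ρ).toPoly))

/-- Random bits which are good for all lists with codes of length at most `N`. -/
def Gd (T : List (List Bool) → ℕ → Prop) (Y : List Bool → Option ℕ) (ρ p : Polynomial ℕ)
    (b c N : ℕ) (r : List Bool) : Prop :=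
  r.length = ρ.eval N ∧ ∀ (n : ℕ) (qs : List (List Bool)), (bits qs).length ≤ N →
    qs.length = n ^ b + b → (∀ y ∈ qs, y.length ≤ n) →
      ∀ l, AOut Y p (bits qs) (r.take (ρ.eval (bits qs).length)) l → l ≤ n ^ c + c ∧ T qs l

theorem exists_gd {T : List (List Bool) → ℕ → Prop} {Y : List Bool → Option ℕ}
    {ρ p : Polynomial ℕ} {b c : ℕ}
    (h : ∀ (n : ℕ) (qs : List (List Bool)), qs.length = n ^ b + b → (∀ y ∈ qs, y.length ≤ n) →
      2 ^ (2 * (bits qs).length + 3) * {r : List Bool | r.length = ρ.eval (bits qs).length ∧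
        ∃ l, AOut Y p (bits qs) r l ∧ ¬ (l ≤ n ^ c + c ∧ T qs l)}.ncard ≤
          2 ^ ρ.eval (bits qs).length) (N : ℕ) : ∃ r, Gd T Y ρ p b c N r := by
  classical
  set X : List Bool → Set (List Bool) := fun z => {r | r.length = ρ.eval z.length ∧
    ∃ (n : ℕ) (qs : List (List Bool)), z = bits qs ∧ (qs.length = n ^ b + b ∧
      ∀ y ∈ qs, y.length ≤ n) ∧ ∃ l, AOut Y p z r l ∧ ¬ (l ≤ n ^ c + c ∧ T qs l)}
    with hXdef
  have hXc : ∀ z, 2 ^ (2 * z.length + 3) * (X z).ncard ≤ 2 ^ ρ.eval z.length := by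
    intro z
    by_cases hz : ∃ (n : ℕ) (qs : List (List Bool)), z = bits qs ∧ (qs.length = n ^ b + b ∧
        ∀ y ∈ qs, y.length ≤ n)
    · obtain ⟨qs, hzq, h2, h3⟩ := Nat.find_spec hz
      subst hzq
      refine le_trans (Nat.mul_le_mul_left _ (Set.ncard_le_ncard ?_ ?_))
        (h (Nat.find hz) qs h2 h3)
      · rintro r ⟨hr, n, qs', hq1, hq2, l, hl1, hl2⟩
        have h4 : qs = qs' := bits_injective hq1
        subst h4
        refine ⟨hr, l, hl1, fun h5 => hl2 ⟨h5.1.trans ?_, h5.2⟩⟩
        exact Nat.add_le_add_right (Nat.pow_le_pow_left (Nat.find_min' hz ⟨qs, rfl, hq2⟩) c) c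
      · exact (str_finite _).subset fun r hr => hr.1
    · have h1 : X z = ∅ := by
        ext r
        simp only [hXdef, Set.mem_ofPred_eq, Set.mem_empty_iff_false, iff_false]
        rintro ⟨_, n, qs, h1, h2, _⟩
        exact hz ⟨n, qs, h1, h2⟩
      rw [h1]
      simp
  have hun := union_keys (X := X) (nf := fun l => ρ.eval l) (B := ρ.eval N)
    (fun z r hr => hr.1) hXc N (fun l hl => eval_mono ρ hl)
  by_contra hcon
  push Not at hcon
  have h1 : Str (ρ.eval N) ⊆ {r : List Bool | r.length = ρ.eval N ∧ ∃ z : List Bool,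
      z.length ≤ N ∧ r.take (ρ.eval z.length) ∈ X z} := by
    intro r hr
    refine ⟨hr, ?_⟩
    by_contra h2
    push Not at h2
    refine hcon r ⟨hr, fun n qs h3 h4 h5 l hl => ?_⟩
    by_contra h6
    refine h2 (bits qs) h3 ⟨?_, n, qs, rfl, ⟨h4, h5⟩, l, hl, h6⟩
    rw [List.length_take, hr]
    exact min_eq_left (eval_mono ρ h3)
  have h2 := Set.ncard_le_ncard h1 ((str_finite (ρ.eval N)).subset fun r hr => hr.1)
  rw [str_ncard] at h2
  have h3 : 0 < 2 ^ ρ.eval N := by positivity
  exact absurd (le_trans (Nat.mul_le_mul_left 2 h2) hun) (by omega)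

/-- **Exclusion with public coins gives candidate lists, for good random bits.** -/
theorem enumR {C K : Set (List Bool) → Prop} (hC : Cl C) {A B L : Set (List Bool)}
    (hK : TTc K B) (hA : ∀ L', K L' → Reduces L' A) (hL : InP L)
    (h : AMFeasibleIn C (Exclude L A)) :
    ∃ (E : List Bool × List (List Bool) → List (List Bool)) (κ ρ : Polynomial ℕ)
      (rN : ℕ → List Bool), CFn C E ∧ (∀ N, (rN N).length = ρ.eval N) ∧
        ∀ qs N, κ.eval (sz qs) ≤ N → answers B qs ∈ E (rN N, qs) := by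
  classical
  obtain ⟨V, hV, hVL⟩ := hL
  obtain ⟨Y, ρ, p, b, c, hY, hYs⟩ := h
  choose rN hrN using exists_gd (ρ := ρ) (p := p) (Y := Y) (b := b) (c := c)
    (fun n qs h1 h2 => (hYs n qs h1 h2).2)
  have hlam : Poly (fun q : ℕ × (ℕ × ℕ) => decide (V (bits q) = [true])) :=
    NPC.Poly.decide_eq ((PIso.poly_iff.2 hV).comp bits_poly) (NPC.Poly.const [true])
  set lam : ℕ × (ℕ × ℕ) → Bool := fun q => decide (V (bits q) = [true]) with hlamdef
  obtain ⟨f, hf, hfA⟩ := hA _ (labB_in hK hlam)
  have hqfp : Poly (fun q : Qu => f (bits q)) := (PIso.poly_iff.2 hf).comp bits_poly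
  obtain ⟨G, Ks, N, r, hG, hKs, hN, hr, hG2⟩ := engineP (b := max b c) lkT_poly hqfp Polynomial.X
  obtain ⟨pK, hpK⟩ := hKs.sz_le
  refine ⟨fun q => G ((Ks (bits q.2)).map fun k => (k, Xr Y ρ p (q.1, k)), bits q.2),
    pK.comp (4 * Polynomial.X + 1), ρ, rN, ?_, fun N => (hrN N).1, fun qs M hM => ?_⟩
  · have e2 : Poly (fun q : List Bool × List (List Bool) => bits q.2) :=
      bits_poly.comp (NPC.Poly.snd NPC.Poly.id)
    have h1 : CFn C (fun p' : (List Bool × List (List Bool)) × (List (List Bool) × ℕ) =>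
        (p'.2, Xr Y ρ p (p'.1.1, p'.2))) :=
      (CFn.poly hC (NPC.Poly.snd NPC.Poly.id)).pair hC
        ((cfn_Xr hC hY ρ p).compPoly hC (NPC.Poly.pair (NPC.Poly.fst (NPC.Poly.fst NPC.Poly.id))
          (NPC.Poly.snd NPC.Poly.id)))
    have h2 : CFn C (fun q : List Bool × List (List Bool) =>
        (Ks (bits q.2)).map fun k => (k, Xr Y ρ p (q.1, k))) :=
      CFn.map hC (l := fun q : List Bool × List (List Bool) => Ks (bits q.2))
        (F := fun p' : (List Bool × List (List Bool)) × (List (List Bool) × ℕ) =>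
          (p'.2, Xr Y ρ p (p'.1.1, p'.2)))
        (hKs.comp e2) h1
    have h3 : CFn C (fun q : List Bool × List (List Bool) =>
        (((Ks (bits q.2)).map fun k => (k, Xr Y ρ p (q.1, k))), bits q.2)) :=
      h2.pair hC (CFn.poly hC e2)
    exact (CFn.poly hC hG).comp hC h3
  · refine hG2 A lam _ (bits qs) (answers B qs) ?_ ?_ ?_
    · refine ⟨(N (bits qs)) ^ b + b, 0, pow_add_mono (le_max_left b c) _, Nat.zero_le _,
        fun qs' hqs' hlen hk => ?_⟩
      rw [lkT_map (fun k => Xr Y ρ p (rN M, k)) hk]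
      have hlenK : (bits qs').length ≤ M := by
        have h1 := sz_le_of_mem hk
        have h2 := hpK (bits qs)
        have h3 := sz_listBool_le (bits qs)
        have h4 := eval_mono pK h3
        have h5 : sz (qs', 0) = sz qs' + sz (0 : ℕ) + 1 := sz_pair _ _
        have h6 : pK.eval (4 * sz qs + 1) ≤ M := by
          simpa [Polynomial.eval_comp] using hM
        rw [bits_length] at h4 ⊢
        omega
      obtain ⟨h1, -⟩ := hYs _ qs' hqs' hlen
      have hrl : ((rN M).take (ρ.eval (bits qs').length)).length = ρ.eval (bits qs').length := by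
        rw [List.length_take, (hrN M).1]
        exact min_eq_left (eval_mono ρ hlenK)
      obtain ⟨l, hl⟩ := h1 _ hrl
      have h2 := mo_spec (Y := Yb Y p) (p := p)
        (z := pairBits (bits qs') ((rN M).take (ρ.eval (bits qs').length)))
        ⟨l, (nout_Yb _ _ _).2 hl⟩
      obtain ⟨h3, h4⟩ := (hrN M).2 _ qs' hlenK hqs' hlen _ ((nout_Yb _ _ _).1 h2)
      refine ⟨h3.trans (pow_add_mono (le_max_right b c) _), fun h5 => h4 ?_⟩
      rw [h5, hqs']
      unfold vec
      refine List.map_congr_left fun i _ => ?_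
      exact decide_eq_decide.2 (hVL _).symm
    · rw [Polynomial.eval_X]
      have h1 := lst_length (bits qs)
      rw [lst_bits] at h1
      simpa [answers] using h1
    · intro m P F j s i
      rw [← hfA, bits_mem_lang]
      unfold LabB
      simp only [lst_bits]

end Pool.Agent.TH684.AP
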