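import Pool.Agent.TH684.AP.Adv
import Pool.Agent.TH684.AM.Thm
import Pool.Agent.TH684.AM.Conv

/-!
# Exclusion with public coins for `PSPACE`-hard sets
-/

set_option autoImplicit false

namespace Pool.Agent.TH684.AP

open Pool.Agent.NPC Pool.Agent.H251R5.PQ Pool.Agent.W901.AT Pool.Agent.H579R2.Spt
open Pool.Agent.H623R2.PS Pool.Agent.H656R2.AK
open Pool.Agent.TH684.EX Pool.Agent.TH684.CX
open Pool.Agent.W901.NU

/-- **Advice with random bits for a `PSPACE`-complete set.** -/
theorem pspace_sub_of_enum {C : Set (List Bool) → Prop} (hC : Cl C)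
    {E0 : List Bool × List (List Bool) → List (List Bool)} (hE0 : CFn C E0)
    {κ ρ : Polynomial ℕ} {rN : ℕ → List Bool} (hrN : ∀ N, (rN N).length = ρ.eval N)
    (hB : ∀ qs N, κ.eval (sz qs) ≤ N → answers (lang nodeP) qs ∈ E0 (rN N, qs)) :
    ∀ L : Set (List Bool), InPSPACE L → C L := by
  have hE := cfn_EL hC hE0
  set F : QF × List Bool → List Bool := fun p => bits p with hF
  have hFp : NPC.Poly F := bits_poly
  have hFA : ∀ x u, F (x, u) ∈ lang nodeP ↔ nodeP (x, u) := fun x u => by
    rw [hF]
    simp only
    rw [bits_mem_lang]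
  obtain ⟨Pm, Pa, hPm, hadv⟩ := adv_exists hE0 hrN hB hFp
  -- the decisions with advice
  set Dv : (QF × (List Bool × List Item)) × List Bool → Bool := fun z =>
    dcd (fun y => EL E0 (z.1.2.1 :: y.map (fun u => F (z.1.1, u)))) (Pm.eval (sz z.1.1)) z.1.2.2 z.2 with hDv
  have hDvp : CFn C Dv := by
    have e1 : NPC.Poly (fun z : (QF × (List Bool × List Item)) × List Bool => z.1.1) :=
      NPC.Poly.fst (NPC.Poly.fst NPC.Poly.id)
    have e2 : UPoly (fun z : (QF × (List Bool × List Item)) × List Bool => Pm.eval (sz z.1.1)) := by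
      refine ((UPoly.length (bits_poly.comp e1)).eval Pm).congr fun z => ?_
      simp only [bits_length]
    have e3 : NPC.Poly (fun q : ((QF × (List Bool × List Item)) × List Bool) × List (List Bool) =>
        q.1.1.2.1 :: q.2.map (fun u => F (q.1.1.1, u))) := by
      refine NPC.Poly.cons (NPC.Poly.fst (NPC.Poly.snd (NPC.Poly.fst
        (NPC.Poly.fst NPC.Poly.id)))) ?_
      refine NPC.Poly.map (l := fun q : ((QF × (List Bool × List Item)) × List Bool) ×
        List (List Bool) => q.2) (F := fun q u => F (q.1.1.1, u)) (NPC.Poly.snd NPC.Poly.id) ?_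
      exact hFp.comp (NPC.Poly.pair (e1.comp (NPC.Poly.fst (NPC.Poly.fst NPC.Poly.id)))
        (NPC.Poly.snd NPC.Poly.id))
    exact CFn.dcd hC hE (G := fun q : ((QF × (List Bool × List Item)) × List Bool) × List (List Bool) =>
        q.1.1.2.1 :: q.2.map (fun u => F (q.1.1.1, u))) e3 e2
      (NPC.Poly.snd (NPC.Poly.snd (NPC.Poly.fst NPC.Poly.id)))
      (NPC.Poly.snd NPC.Poly.id)
  -- the local test
  set T : ((QF × (List Bool × List Item)) × List Bool) × (Bool × (Bool × Bool)) → Bool := fun y =>
    if y.1.2.length < y.1.1.1.1.length then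
      decide (y.2.1 = (if y.1.1.1.1.getD y.1.2.length false then
        y.2.2.1 && y.2.2.2 else y.2.2.1 || y.2.2.2))
    else if y.1.2.length = y.1.1.1.1.length then decide (y.2.1 = evc y.1.2 y.1.1.1.2) else true
    with hT
  have hTp : NPC.Poly T := by
    have d0 : NPC.Poly (fun y : ((QF × (List Bool × List Item)) × List Bool) × (Bool × (Bool × Bool)) =>
        y.2.2.1) := by fun_prop
    have d1 : NPC.Poly (fun y : ((QF × (List Bool × List Item)) × List Bool) × (Bool × (Bool × Bool)) =>
        y.2.2.2) := by fun_prop
    have d : NPC.Poly (fun y : ((QF × (List Bool × List Item)) × List Bool) × (Bool × (Bool × Bool)) =>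
        y.2.1) := by fun_prop
    have d2 : NPC.Poly (fun y : ((QF × (List Bool × List Item)) × List Bool) × (Bool × (Bool × Bool)) =>
        evc y.1.2 y.1.1.1.2) :=
      evc_poly.comp (f := fun y : ((QF × (List Bool × List Item)) × List Bool) × (Bool × (Bool × Bool)) =>
        (y.1.2, y.1.1.1.2)) (by fun_prop)
    have d3 : NPC.Poly (fun y : ((QF × (List Bool × List Item)) × List Bool) × (Bool × (Bool × Bool)) =>
        decide (y.1.1.1.1.getD y.1.2.length false = true)) := by fun_prop
    have d4 : NPC.Poly (fun y : ((QF × (List Bool × List Item)) × List Bool) × (Bool × (Bool × Bool)) =>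
      decide (y.1.2.length < y.1.1.1.1.length)) := by fun_prop
    have d5 : NPC.Poly (fun y : ((QF × (List Bool × List Item)) × List Bool) × (Bool × (Bool × Bool)) =>
      decide (y.1.2.length = y.1.1.1.1.length)) := by fun_prop
    rw [hT]
    refine NPC.Poly.ite d4 (NPC.Poly.decide_eq d (NPC.Poly.ite d3 (NPC.Poly.and d0 d1)
      (NPC.Poly.or d0 d1))) (NPC.Poly.ite d5 (NPC.Poly.decide_eq d d2) (NPC.Poly.const _))
  set chk : (QF × (List Bool × List Item)) × List Bool → Bool := fun z =>
    T (z, (Dv z, (Dv (z.1, z.2 ++ [false]), Dv (z.1, z.2 ++ [true])))) with hchk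
  have hchkp : CPr C (fun z => chk z = true) := by
    have d0 : CFn C (fun z : (QF × (List Bool × List Item)) × List Bool => Dv (z.1, z.2 ++ [false])) :=
      hDvp.compPoly hC (f := fun z : (QF × (List Bool × List Item)) × List Bool => (z.1, z.2 ++ [false]))
        (by fun_prop)
    have d1 : CFn C (fun z : (QF × (List Bool × List Item)) × List Bool => Dv (z.1, z.2 ++ [true])) :=
      hDvp.compPoly hC (f := fun z : (QF × (List Bool × List Item)) × List Bool => (z.1, z.2 ++ [true]))
        (by fun_prop)
    exact CFn.isTrue hC ((CFn.poly hC hTp).comp hC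
      ((CFn.poly hC NPC.Poly.id).pair hC (hDvp.pair hC (d0.pair hC d1))))
  have hlen : ∀ x : QF, x.1.length < sz x := fun x => by
    have h1 := length_lt_sz x.1
    have h2 : sz x = sz x.1 + sz x.2 + 1 := sz_pair x.1 x.2
    omega
  have hval : CPr C (fun x : QF => nodeVal x [] = true) := by
    refine sigmaC hC hchkp (out := fun z : QF × (List Bool × List Item) => Dv (z, []) = true)
      (CFn.isTrue hC (hDvp.compPoly hC (f := fun z : QF × (List Bool × List Item) => (z, [])) (by fun_prop)))
      Pa Polynomial.X (fun x => ?_) (fun x a hxa => ?_)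
    · obtain ⟨adv, h1, h2⟩ := hadv (sz x) x le_rfl
      refine ⟨adv, h1, fun w hw => ?_⟩
      rw [Polynomial.eval_X] at hw
      have key : ∀ u : List Bool, u.length ≤ x.1.length → Dv ((x, adv), u) = nodeVal x u := by
        intro u hu
        have h3 := h2 u (by have := hlen x; omega)
        rw [hFA] at h3
        rw [Bool.eq_iff_iff]
        refine h3.trans ?_
        unfold nodeP
        simp only
        constructor
        · exact fun h => h.2
        · exact fun h => ⟨hu, h⟩
      rw [hchk, hT]
      simp only
      by_cases g1 : w.length < x.1.length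
      · rw [if_pos g1, decide_eq_true_eq, key w g1.le, key _ (by simp; omega),
          key _ (by simp; omega), nodeVal_step x w g1]
        cases x.1.getD w.length false <;> rfl
      · rw [if_neg g1]
        by_cases g2 : w.length = x.1.length
        · rw [if_pos g2, decide_eq_true_eq, key w g2.le, nodeVal_leaf x w g2]
        · rw [if_neg g2]
    · have key : ∀ (k : ℕ) (u : List Bool), u.length + k = x.1.length →
          Dv ((x, a), u) = nodeVal x u := by
        intro k
        induction k with
        | zero =>
          intro u hu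
          have h1 := hxa u (by rw [Polynomial.eval_X]; have := hlen x; omega)
          rw [hchk, hT] at h1
          simp only at h1
          rw [if_neg (by omega), if_pos (by omega), decide_eq_true_eq] at h1
          rw [h1, nodeVal_leaf x u (by omega)]
        | succ k ih =>
          intro u hu
          have h1 := hxa u (by rw [Polynomial.eval_X]; have := hlen x; omega)
          rw [hchk, hT] at h1
          simp only at h1
          rw [if_pos (by omega), decide_eq_true_eq] at h1
          rw [h1, ih (u ++ [false]) (by simp; omega), ih (u ++ [true]) (by simp; omega),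
            nodeVal_step x u (by omega)]
          cases x.1.getD u.length false <;> rfl
      rw [key x.1.length [] (by simp)]
  intro L hL
  obtain ⟨g, hg, _, hgL⟩ := qbf_hard hL
  have h1 : C {x | nodeVal (g x) [] = true} :=
    CPr.to_raw hC (hval.comp hC hg)
  have e : L = {x | nodeVal (g x) [] = true} := Set.ext fun x => by
    rw [hgL x, Set.mem_setOf_eq]
    unfold nodeVal
    simp
  rw [e]
  exact h1


end Pool.Agent.TH684.AP
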