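import Pool.Agent.TH684.DI.Space

/-!
# The least output of a nondeterministic algorithm, computed in a class
-/

set_option autoImplicit false

namespace Pool.Agent.TH684.AP

open Pool.Agent.NPC Pool.Agent.H251R5.PQ Pool.Agent.W901.AT Pool.Agent.H579R2.Spt
open Pool.Agent.TH684.EX Pool.Agent.TH684.CX Pool.Agent.TH684.DI
open Pool.Agent.W901.NU

theorem cpr_noutC {C : Set (List Bool) → Prop} {Y : List Bool → Option ℕ} (hC : Cl C) (hY : CFn C Y) (p : Polynomial ℕ) :
    CPr C (fun q : List Bool × ℕ => NOut Y p q.1 q.2) := by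
  have h1 : CPr C (fun t : (List Bool × ℕ) × List Bool =>
      (decide (t.2.length ≤ p.eval t.1.1.length) &&
        decide (Y (pairBits t.1.1 t.2) = some t.1.2)) = true) := by
    have e1 : Poly (fun t : (List Bool × ℕ) × List Bool => t.1.1) :=
      NPC.Poly.fst (NPC.Poly.fst NPC.Poly.id)
    have e2 : Poly (fun t : (List Bool × ℕ) × List Bool => t.2) := NPC.Poly.snd NPC.Poly.id
    have e3 : CFn C (fun t : (List Bool × ℕ) × List Bool => Y (pairBits t.1.1 t.2)) :=
      hY.compPoly hC (H622R2.poly_pairBits e1 e2)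
    have e4 : Poly (fun s : ((List Bool × ℕ) × List Bool) × Option ℕ =>
        decide (s.1.2.length ≤ p.eval s.1.1.1.length) && decide (s.2 = some s.1.1.2)) := by
      have f1 : Poly (fun s : ((List Bool × ℕ) × List Bool) × Option ℕ => s.1) :=
        NPC.Poly.fst NPC.Poly.id
      exact NPC.Poly.and (NPC.Poly.decide_le (NPC.Poly.length (e2.comp f1))
        ((UPoly.length (e1.comp f1)).eval p).toPoly)
        (NPC.Poly.decide_eq (NPC.Poly.snd NPC.Poly.id)
          (NPC.Poly.some (NPC.Poly.snd (NPC.Poly.fst f1))))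
    exact CFn.isTrue hC ((CFn.poly hC e4).comp hC ((CFn.poly hC NPC.Poly.id).pair hC e3))
  refine (h1.exW hC p).congr fun q => ?_
  constructor
  · rintro ⟨w, -, h2⟩
    simp only [Bool.and_eq_true, decide_eq_true_eq] at h2
    exact ⟨w, h2.1, h2.2⟩
  · rintro ⟨w, h2, h3⟩
    refine ⟨w, h2.trans (eval_mono p ?_), ?_⟩
    · have h4 := length_lt_sz q.1
      have h5 : sz q = sz q.1 + sz q.2 + 1 := sz_pair q.1 q.2
      omega
    · simp only [Bool.and_eq_true, decide_eq_true_eq]
      exact ⟨h2, h3⟩

theorem cpr_someC {C : Set (List Bool) → Prop} {Y : List Bool → Option ℕ} (hC : Cl C) (hY : CFn C Y) (p : Polynomial ℕ) :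
    CPr C (fun z : List Bool => ∃ w : List Bool, w.length ≤ p.eval z.length ∧
      (Y (pairBits z w)).isSome = true) := by
  have h1 : CPr C (fun t : List Bool × List Bool =>
      (decide (t.2.length ≤ p.eval t.1.length) && (Y (pairBits t.1 t.2)).isSome) = true) := by
    have e1 : Poly (fun t : List Bool × List Bool => t.1) := NPC.Poly.fst NPC.Poly.id
    have e2 : Poly (fun t : List Bool × List Bool => t.2) := NPC.Poly.snd NPC.Poly.id
    have e3 : CFn C (fun t : List Bool × List Bool => Y (pairBits t.1 t.2)) :=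
      hY.compPoly hC (H622R2.poly_pairBits e1 e2)
    have e4 : Poly (fun s : (List Bool × List Bool) × Option ℕ =>
        decide (s.1.2.length ≤ p.eval s.1.1.length) && s.2.isSome) := by
      have f1 : Poly (fun s : (List Bool × List Bool) × Option ℕ => s.1) :=
        NPC.Poly.fst NPC.Poly.id
      exact NPC.Poly.and (NPC.Poly.decide_le (NPC.Poly.length (e2.comp f1))
        ((UPoly.length (e1.comp f1)).eval p).toPoly)
        (Pool.Agent.W920.LN.isSome_poly (NPC.Poly.snd NPC.Poly.id))
    exact CFn.isTrue hC ((CFn.poly hC e4).comp hC ((CFn.poly hC NPC.Poly.id).pair hC e3))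
  refine (h1.exW hC p).congr fun z => ?_
  constructor
  · rintro ⟨w, -, h2⟩
    simp only [Bool.and_eq_true, decide_eq_true_eq] at h2
    exact ⟨w, h2.1, h2.2⟩
  · rintro ⟨w, h2, h3⟩
    refine ⟨w, h2.trans (eval_mono p (length_lt_sz z).le), ?_⟩
    simp only [Bool.and_eq_true, decide_eq_true_eq]
    exact ⟨h2, h3⟩

theorem cfn_moC {C : Set (List Bool) → Prop} {Y : List Bool → Option ℕ} (hC : Cl C) (hY : CFn C Y) (p : Polynomial ℕ) :
    CFn C (fun z : List Bool => mo Y p z) := by
  obtain ⟨q, hq⟩ := id hY.1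
  refine ⟨⟨q.comp (Polynomial.C 8 * (Polynomial.X + p) + 5) + 1, fun z => ?_⟩, ?_⟩
  · by_cases h : ∃ l, NOut Y p z l
    · obtain ⟨w, hw, hl⟩ := mo_spec h
      have h1 := hq (pairBits z w)
      rw [hl, sz_some] at h1
      have h2 : sz (pairBits z w) ≤ 8 * (sz z + p.eval (sz z)) + 5 := by
        have h3 := sz_listBool_le (pairBits z w)
        have h4 : (pairBits z w).length = 2 * z.length + w.length + 1 :=
          Pool.Agent.W920.NL.pairBits_len z w
        have h5 := length_lt_sz z
        have h6 := eval_mono p h5.le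
        omega
      have h3 := eval_mono q h2
      simp only [Polynomial.eval_add, Polynomial.eval_mul, Polynomial.eval_C, Polynomial.eval_one,
        Polynomial.eval_comp, Polynomial.eval_X, Polynomial.eval_ofNat]
      omega
    · have h1 : mo Y p z = 0 := by
        unfold mo
        rw [dif_neg h]
      change sz (mo Y p z) ≤ _
      rw [h1]
      have h2 : sz (0 : ℕ) = 1 := rfl
      rw [h2]
      simp only [Polynomial.eval_add, Polynomial.eval_one]
      omega
  · have e1 : Poly (fun q : List Bool × ℕ => q.1) := NPC.Poly.fst NPC.Poly.id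
    have e2 : Poly (fun q : List Bool × ℕ => q.2) := NPC.Poly.snd NPC.Poly.id
    have a2 := cpr_noutC hC hY p
    have f1 : Poly (fun t : (List Bool × ℕ) × ℕ => (t.1.1, t.2)) :=
      NPC.Poly.pair (NPC.Poly.fst (NPC.Poly.fst NPC.Poly.id)) (NPC.Poly.snd NPC.Poly.id)
    have a3 : CPr C (fun t : (List Bool × ℕ) × ℕ => NOut Y p t.1.1 t.2) :=
      a2.comp hC f1
    have a4 : CPr C (fun t : (List Bool × ℕ) × ℕ =>
        (decide (sz t.2 ≤ 2 * sz t.1.2) && decide (t.2 < t.1.2)) = true) := by
      refine CPr.poly hC (NPC.Poly.and ?_ (NPC.Poly.decide_lt (NPC.Poly.snd NPC.Poly.id)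
        (NPC.Poly.snd (NPC.Poly.fst NPC.Poly.id))))
      have u1 : Poly (fun t : (List Bool × ℕ) × ℕ => (bits t.2).length) :=
        NPC.Poly.length (bits_poly.comp (NPC.Poly.snd NPC.Poly.id))
      have u2 : Poly (fun t : (List Bool × ℕ) × ℕ => (bits t.1.2).length) :=
        NPC.Poly.length (bits_poly.comp (NPC.Poly.snd (NPC.Poly.fst NPC.Poly.id)))
      refine (NPC.Poly.decide_le u1 (NPC.Poly.mul (NPC.Poly.const 2) u2)).congr fun t => ?_
      rw [bits_length, bits_length]
    have a5 := ((a4.and hC a3).ex hC (2 * Polynomial.X)).not hC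
    have a6 := ((cpr_someC hC hY p).comp hC e1).not hC
    have a7 : CPr C (fun q : List Bool × ℕ => decide (q.2 = 0) = true) :=
      CPr.poly hC (NPC.Poly.decide_eq e2 (NPC.Poly.const 0))
    refine ((a2.and hC a5).or hC (a7.and hC a6)).congr fun q => ?_
    rw [mo_iff q.2]
    refine or_congr (and_congr_right fun _ => not_congr ?_) (and_congr_left fun _ => by
      rw [decide_eq_true_eq])
    constructor
    · rintro ⟨l', -, h1, h2⟩
      simp only [Bool.and_eq_true, decide_eq_true_eq] at h1
      exact ⟨l', h1.1, h1.2, h2⟩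
    · rintro ⟨l', h1, h2, h3⟩
      refine ⟨l', ?_, ?_, h3⟩
      · have h5 : sz q = sz q.1 + sz q.2 + 1 := sz_pair q.1 q.2
        simp only [Polynomial.eval_mul, Polynomial.eval_X, Polynomial.eval_ofNat]
        omega
      · simp only [Bool.and_eq_true, decide_eq_true_eq]
        exact ⟨h1, h2⟩


end Pool.Agent.TH684.AP
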